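import Pool.Agent.P.MP_d1514d_gt.Prod

open Pool.Agent.Lib.PosetForcing Pool.Agent.P.MP_d1514d_gt

namespace Pool.Agent.Results.MP_d1514d_gt.Consistent

theorem result : ∃ (M : Type 1) (mem : M → M → Prop), IsZFC mem ∧ ∃ C : Ctx M,
    IsOmega mem C.w ∧ IsReals mem C ∧ ∃ X TX, IsRealSet mem C X TX ∧
      (∀ u Z TZ S T, IsFreeUltra mem C u → IsTopOn mem Z TZ → UMenger mem C u Z TZ →
        IsProd mem X TX Z TZ S T → UMenger mem C u S T) ∧
      ∃ Y TY S T, IsRealSet mem C Y TY ∧ Scheepers mem C Y TY ∧ IsProd mem X TX Y TY S T ∧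
        ¬ Menger mem C S T := by
  obtain ⟨U, -⟩ := exists_gen (⊤ : PP)
  exact ⟨Mod U, Mod.mem, isZFC U, CC.val U, isOmega_omega U, isReals hσ U, _, _, isRealSet ρX U,
    productive U, _, _, _, _, isRealSet ρY U, scheepers U, isProd _ _ _ _ U, not_menger U⟩

end Pool.Agent.Results.MP_d1514d_gt.Consistent
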